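import Mathlib
import Pool.Agent.H31.INS.Slf

set_option autoImplicit false

namespace Pool.Agent.Results.MP_c94587_al.LinearFilling

/-- words in the letters `a`, `a⁻¹` (`a ∈ A`): `(a, true)` is `a`, `(a, false)` is `a⁻¹` -/
abbrev Word (A : Type) := List (A × Bool)

/-- the inverse word -/
def inv {A : Type} (w : Word A) : Word A := (w.map fun x => (x.1, !x.2)).reverse

/-- the relators as elements of the free group on `A` -/
def Rels {A : Type} (R : Set (Word A)) : Set (FreeGroup A) := {g | ∃ r ∈ R, FreeGroup.mk r = g}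

/-- `⟨A | R⟩` is a finite presentation of the group `G`, with `R` closed under inverses and cyclic
permutations -/
def Presents {A : Type} (R : Set (Word A)) (G : Type) [Group G] : Prop :=
  Finite A ∧ R.Finite ∧ (∀ r ∈ R, inv r ∈ R) ∧ (∀ u v, u ++ v ∈ R → v ++ u ∈ R) ∧
    Nonempty (PresentedGroup (Rels R) ≃* G)

/-- one move: delete or insert a subword `a a⁻¹` (`a` a letter or its inverse), or replace a subword `u`
by a word `v` with `u v⁻¹ ∈ R` -/
def Move {A : Type} (R : Set (Word A)) (w w' : Word A) : Prop :=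
  ∃ p q u v : Word A, w = p ++ u ++ q ∧ w' = p ++ v ++ q ∧
    ((∃ x : A × Bool, (u = [x, (x.1, !x.2)] ∧ v = []) ∨ (u = [] ∧ v = [x, (x.1, !x.2)])) ∨
      u ++ inv v ∈ R)

/-- the word `w` represents the identity -/
def Null {A : Type} (R : Set (Word A)) (w : Word A) : Prop :=
  FreeGroup.mk w ∈ Subgroup.normalClosure (Rels R)

/-- `w` has a null-sequence `w = s 0, ..., s m` = empty word, of words of length at most `N`; that is,
`FL(w) ≤ N` -/
def FillsIn {A : Type} (R : Set (Word A)) (w : Word A) (N : ℕ) : Prop :=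
  ∃ (m : ℕ) (s : ℕ → Word A), s 0 = w ∧ s m = [] ∧ (∀ i ≤ m, (s i).length ≤ N) ∧
    ∀ i < m, Move R (s i) (s (i + 1))

/-- `F` is the filling length function: `F n` is the least `N` with `FL(w) ≤ N` for all null-homotopic
words `w` of length at most `n` -/
def IsFL {A : Type} (R : Set (Word A)) (F : ℕ → ℕ) : Prop :=
  ∀ n, IsLeast {N | ∀ w, Null R w → w.length ≤ n → FillsIn R w N} (F n)

/-- **SL(3, Z) has linear filling length**: it has a finite presentation, and for every finite
presentation of it the filling length function exists and is at most `C n + C`. -/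
theorem result :
    (∃ (A : Type) (R : Set (Word A)), Presents R (Matrix.SpecialLinearGroup (Fin 3) ℤ)) ∧
    ∀ (A : Type) (R : Set (Word A)), Presents R (Matrix.SpecialLinearGroup (Fin 3) ℤ) →
      ∃ F : ℕ → ℕ, IsFL R F ∧ ∃ C : ℕ, ∀ n, F n ≤ C * n + C :=
  Pool.Agent.H31.INS.Slf.main

end Pool.Agent.Results.MP_c94587_al.LinearFilling
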